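import Pool.Agent.H.MP_9d9f8d_ag.D

set_option autoImplicit false

namespace Pool.Agent.Dep

open CategoryTheory Abelian Pool.Agent.PdOne Pool.Agent.PdFun Pool.Agent.PdSym RingTheory.Sequence

variable {S : Type} [CommRing S] (P : Ideal S)

/-- Vanishing of the first `n` Ext groups from `S ⧸ P`. -/
def DP (M : Type) [AddCommGroup M] [Module S M] (n : ℕ) : Prop :=
  ∀ i < n, Subsingleton (Ext (ModuleCat.of S (S ⧸ P)) (ModuleCat.of S M) i)

variable {P}

section ses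
variable {A B C : Type} [AddCommGroup A] [Module S A] [AddCommGroup B] [Module S B]
  [AddCommGroup C] [Module S C]

lemma DP.mono {n m : ℕ} (h : DP P A n) (hm : m ≤ n) : DP P A m := fun i hi => h i (by omega)

variable (f : A →ₗ[S] B) (g : B →ₗ[S] C)
  (he : Function.Exact f g) (hf : Function.Injective f) (hg : Function.Surjective g)
include he hf hg

lemma dp2 {n : ℕ} (h1 : DP P A n) (h3 : DP P C n) : DP P B n := fun i hi => by
  refine subsingleton_of_forall_eq 0 fun x => ?_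
  obtain ⟨y, hy⟩ := Ext.covariant_sequence_exact₂ _ (ses f g he hf hg) x
    (@Subsingleton.elim _ (h3 i hi) _ _)
  rw [← hy, @Subsingleton.elim _ (h1 i hi) y 0, Ext.zero_comp]

lemma dp3 {n : ℕ} (h1 : DP P A (n + 1)) (h2 : DP P B n) : DP P C n := fun i hi => by
  refine subsingleton_of_forall_eq 0 fun x => ?_
  obtain ⟨y, hy⟩ := Ext.covariant_sequence_exact₃ _ (ses f g he hf hg) x rfl
    (@Subsingleton.elim _ (h1 (i + 1) (by omega)) _ _)
  rw [← hy, @Subsingleton.elim _ (h2 i hi) y 0, Ext.zero_comp]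

lemma dp1' {n : ℕ} (h2 : ∀ i < n + 1, ∀ x : Ext (ModuleCat.of S (S ⧸ P)) (ModuleCat.of S A) i,
    x.comp (Ext.mk₀ (ModuleCat.ofHom f)) (add_zero i) = 0) (h3 : DP P C n) : DP P A (n + 1) := by
  intro i hi
  refine subsingleton_of_forall_eq 0 fun x => ?_
  rcases i with _ | i
  · have : Mono (ModuleCat.ofHom f) := (ses f g he hf hg).mono_f
    refine Ext.postcomp_mk₀_injective_of_mono _ (ModuleCat.ofHom f) ?_
    rw [map_zero]
    exact h2 0 hi x
  · obtain ⟨y, hy⟩ := Ext.covariant_sequence_exact₁ _ (ses f g he hf hg) x (h2 _ hi x) rfl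
    rw [← hy, @Subsingleton.elim _ (h3 i (by omega)) y 0, Ext.zero_comp]

lemma dp1 {n : ℕ} (h2 : DP P B (n + 1)) (h3 : DP P C n) : DP P A (n + 1) :=
  dp1' f g he hf hg (fun i hi _ => @Subsingleton.elim _ (h2 i hi) _ _) h3

end ses

section colon
variable (I K : Ideal S) (g : S) (hK : ∀ c, c ∈ K ↔ c * g ∈ I)

/-- Multiplication by `g` on quotients. -/
def qIn : (S ⧸ K) →ₗ[S] S ⧸ I :=
  K.mapQ I (LinearMap.mulRight S g) fun c hc => (hK c).1 hc

/-- The projection to the larger quotient. -/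
def qOut (J : Ideal S) (h : I ≤ J) : (S ⧸ I) →ₗ[S] S ⧸ J := I.mapQ J LinearMap.id h

lemma qOut_surj (J : Ideal S) (h : I ≤ J) : Function.Surjective (qOut I J h) := by
  intro y
  obtain ⟨y, rfl⟩ := Submodule.mkQ_surjective J y
  exact ⟨I.mkQ y, rfl⟩

lemma qIn_inj : Function.Injective (qIn I K g hK) := by
  rw [injective_iff_map_eq_zero]
  intro y hy
  obtain ⟨y, rfl⟩ := Submodule.mkQ_surjective K y
  exact (Submodule.Quotient.mk_eq_zero K).2 ((hK y).2 ((Submodule.Quotient.mk_eq_zero I).1 hy))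

lemma q_exact : Function.Exact (qIn I K g hK) (qOut I (I ⊔ Ideal.span {g}) le_sup_left) := by
  intro y
  obtain ⟨y, rfl⟩ := Submodule.mkQ_surjective I y
  constructor
  · intro h
    obtain ⟨i, hi, s, hs, rfl⟩ := Submodule.mem_sup.1 ((Submodule.Quotient.mk_eq_zero _).1 h)
    obtain ⟨c, rfl⟩ := Ideal.mem_span_singleton'.1 hs
    refine ⟨K.mkQ c, ?_⟩
    change I.mkQ (c * g) = _
    rw [map_add, show I.mkQ i = 0 from (Submodule.Quotient.mk_eq_zero I).2 hi, zero_add]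
  · rintro ⟨c, hc⟩
    obtain ⟨c, rfl⟩ := Submodule.mkQ_surjective K c
    rw [← hc]
    exact (Submodule.Quotient.mk_eq_zero _).2
      (Ideal.mem_sup_right (Ideal.mul_mem_left _ _ (Ideal.mem_span_singleton_self g)))

include hK in
lemma dq_mid {n : ℕ} (h1 : DP P (S ⧸ K) n) (h2 : DP P (S ⧸ (I ⊔ Ideal.span {g})) n) :
    DP P (S ⧸ I) n := dp2 _ _ (q_exact I K g hK) (qIn_inj I K g hK) (qOut_surj _ _ _) h1 h2

include hK in
lemma dq_colon {n : ℕ} (h1 : DP P (S ⧸ I) (n + 1)) (h2 : DP P (S ⧸ (I ⊔ Ideal.span {g})) n) :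
    DP P (S ⧸ K) (n + 1) := dp1 _ _ (q_exact I K g hK) (qIn_inj I K g hK) (qOut_surj _ _ _) h1 h2

end colon

lemma dq_down (I : Ideal S) (g : S) (h : ∀ c, c * g ∈ I → c ∈ I) {n : ℕ}
    (h1 : DP P (S ⧸ I) (n + 1)) : DP P (S ⧸ (I ⊔ Ideal.span {g})) n :=
  have hK : ∀ c, c ∈ I ↔ c * g ∈ I := fun c => ⟨I.mul_mem_right g, h c⟩
  dp3 _ _ (q_exact I I g hK) (qIn_inj I I g hK) (qOut_surj _ _ _) h1 (h1.mono (by omega))

lemma dq_up (I : Ideal S) (g : S) (h : ∀ c, c * g ∈ I → c ∈ I) (hg : g ∈ P) {n : ℕ}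
    (h1 : DP P (S ⧸ (I ⊔ Ideal.span {g})) n) : DP P (S ⧸ I) (n + 1) := by
  have hK : ∀ c, c ∈ I ↔ c * g ∈ I := fun c => ⟨I.mul_mem_right g, h c⟩
  refine dp1' _ _ (q_exact I I g hK) (qIn_inj I I g hK) (qOut_surj _ _ _) (fun i _ x => ?_) h1
  have h2 : ModuleCat.ofHom (qIn I I g hK) = g • 𝟙 (ModuleCat.of S (S ⧸ I)) := by
    refine ModuleCat.hom_ext (LinearMap.ext fun y => ?_)
    obtain ⟨y, rfl⟩ := Submodule.mkQ_surjective I y
    change I.mkQ (y * g) = g • I.mkQ y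
    rw [← map_smul, smul_eq_mul, mul_comm]
  have h3 : g • 𝟙 (ModuleCat.of S (S ⧸ P)) = 0 := by
    refine ModuleCat.hom_ext (LinearMap.ext fun y => ?_)
    obtain ⟨y, rfl⟩ := Submodule.mkQ_surjective P y
    change g • P.mkQ y = 0
    rw [← map_smul]
    exact (Submodule.Quotient.mk_eq_zero P).2 (P.mul_mem_right y hg)
  rw [h2, Ext.mk₀_smul, Ext.comp_smul, Ext.comp_mk₀_id, ← Ext.mk₀_id_comp x, ← Ext.smul_comp,
    ← Ext.mk₀_smul, h3, Ext.mk₀_zero, Ext.zero_comp]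

section mv
variable (I I' : Ideal S)

/-- First map of the Mayer-Vietoris sequence of quotients. -/
def mqIn : (S ⧸ (I ⊓ I')) →ₗ[S] (S ⧸ I) × (S ⧸ I') :=
  (qOut _ I inf_le_left).prod (qOut _ I' inf_le_right)

/-- Second map of the Mayer-Vietoris sequence of quotients. -/
def mqOut : (S ⧸ I) × (S ⧸ I') →ₗ[S] S ⧸ (I ⊔ I') :=
  (qOut I _ le_sup_left).coprod (-qOut I' _ le_sup_right)

lemma mqIn_inj : Function.Injective (mqIn I I') := by
  rw [injective_iff_map_eq_zero]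
  intro y hy
  obtain ⟨y, rfl⟩ := Submodule.mkQ_surjective _ y
  exact (Submodule.Quotient.mk_eq_zero _).2
    ⟨(Submodule.Quotient.mk_eq_zero I).1 (congrArg Prod.fst hy),
      (Submodule.Quotient.mk_eq_zero I').1 (congrArg Prod.snd hy)⟩

lemma mqOut_surj : Function.Surjective (mqOut I I') := by
  intro y
  obtain ⟨y, rfl⟩ := Submodule.mkQ_surjective _ y
  exact ⟨(I.mkQ y, 0), by simp [mqOut, qOut]⟩

lemma mq_exact : Function.Exact (mqIn I I') (mqOut I I') := by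
  rintro ⟨y, z⟩
  obtain ⟨y, rfl⟩ := Submodule.mkQ_surjective _ y
  obtain ⟨z, rfl⟩ := Submodule.mkQ_surjective _ z
  constructor
  · intro h
    have h1 : (I ⊔ I').mkQ (y - z) = 0 := by
      rw [map_sub, sub_eq_add_neg]; exact h
    obtain ⟨i, hi, s, hs, e⟩ := Submodule.mem_sup.1 ((Submodule.Quotient.mk_eq_zero _).1 h1)
    refine ⟨(I ⊓ I').mkQ (y - i), Prod.ext ?_ ?_⟩
    · exact (Submodule.Quotient.eq I).2 (by simpa using hi)
    · exact (Submodule.Quotient.eq I').2 (by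
        rwa [show LinearMap.id (R := S) (y - i) - z = s by simp; linear_combination -e])
  · rintro ⟨c, hc⟩
    obtain ⟨c, rfl⟩ := Submodule.mkQ_surjective _ c
    rw [← hc]
    exact add_neg_cancel ((I ⊔ I').mkQ c)

variable {I I'}

lemma dp_pair {n : ℕ} (h : DP P (S ⧸ I) n) (h' : DP P (S ⧸ I') n) :
    DP P ((S ⧸ I) × (S ⧸ I')) n :=
  dp2 _ _ Function.Exact.inl_snd LinearMap.inl_injective LinearMap.snd_surjective h h'

lemma dq_inf {n : ℕ} (h : DP P (S ⧸ I) (n + 1)) (h' : DP P (S ⧸ I') (n + 1))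
    (h0 : DP P (S ⧸ (I ⊔ I')) n) : DP P (S ⧸ (I ⊓ I')) (n + 1) :=
  dp1 _ _ (mq_exact I I') (mqIn_inj I I') (mqOut_surj I I') (dp_pair h h') h0

lemma dq_sup {n : ℕ} (h : DP P (S ⧸ I) n) (h' : DP P (S ⧸ I') n)
    (h0 : DP P (S ⧸ (I ⊓ I')) (n + 1)) : DP P (S ⧸ (I ⊔ I')) n :=
  dp3 _ _ (mq_exact I I') (mqIn_inj I I') (mqOut_surj I I') h0 (dp_pair h h')

end mv

lemma dq_socle {I : Ideal S} (h : DP P (S ⧸ I) 1) (u : S) (hk : ∀ r ∈ P, r * u ∈ I) : u ∈ I := by
  have h2 : Subsingleton (ModuleCat.of S (S ⧸ P) ⟶ ModuleCat.of S (S ⧸ I)) :=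
    Ext.homEquiv₀.subsingleton_congr.1 (h 0 (by omega))
  have hle : P ≤ LinearMap.ker (I.mkQ.comp (LinearMap.toSpanSingleton S S u)) := fun r h =>
    (Submodule.Quotient.mk_eq_zero I).2 (hk r h)
  have h3 := Subsingleton.elim (ModuleCat.ofHom (P.liftQ _ hle)) 0
  have h4 := congrArg (fun φ => φ.hom (P.mkQ 1)) h3
  have h5 : I.mkQ ((1 : S) • u) = 0 := h4
  rw [one_smul] at h5
  exact (Submodule.Quotient.mk_eq_zero I).1 h5

lemma isGreatest_of_dp [IsNoetherianRing S] {I : Ideal S} (hI : I ≤ P) (hP : P ≠ ⊤) {n : ℕ}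
    (h1 : DP P (S ⧸ I) n) (h2 : ¬ DP P (S ⧸ I) (n + 1)) :
    IsGreatest {l | ∃ rs : List S, rs.length = l ∧ (∀ r ∈ rs, r ∈ P) ∧ IsRegular (S ⧸ I) rs} n := by
  have hs : Module.support S (ModuleCat.of S (S ⧸ P)) = PrimeSpectrum.zeroLocus P := by
    rw [Module.support_eq_zeroLocus, Ideal.annihilator_quotient]
  have hlt : P • (⊤ : Submodule S (ModuleCat.of S (S ⧸ I))) < ⊤ := by
    refine lt_top_iff_ne_top.2 fun h => hP ?_
    have h3 := congrArg (Submodule.comap I.mkQ) h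
    rw [Submodule.comap_smul_top_of_surjective P _ (Submodule.mkQ_surjective _),
      Submodule.ker_mkQ, smul_eq_mul, Ideal.mul_top, Submodule.comap_top] at h3
    rwa [sup_eq_left.2 hI] at h3
  refine ⟨ModuleCat.exists_isRegular_of_exists_subsingleton_ext P n (ModuleCat.of S (S ⧸ I)) hlt
    _ hs h1, ?_⟩
  rintro _ ⟨rs, rfl, h3, h4⟩
  by_contra h5
  exact h2 fun i hi => ModuleCat.subsingleton_ext_of_exists_isRegular P _ hs.le
    (ModuleCat.of S (S ⧸ I)) hlt rs h3 h4 i (by omega)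

open MvPolynomial

variable {σ : Type} {k : Type} [Field k]

variable (k) in
/-- Depth bound for the quotient by a monomial ideal. -/
def DM (E : Set (σ →₀ ℕ)) (n : ℕ) : Prop :=
  DP (Ideal.span (Set.range (X : σ → MvPolynomial σ k))) (MvPolynomial σ k ⧸ MI k E) n

lemma DM.mono {E : Set (σ →₀ ℕ)} {n m : ℕ} (h : DM k E n) (hm : m ≤ n) : DM k E m := DP.mono h hm

lemma DM.congr {E E' : Set (σ →₀ ℕ)} {n : ℕ} (h : DM k E n) (he : ∀ m, m ∈ E ↔ m ∈ E') :
    DM k E' n := by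
  rwa [← Set.ext he]

lemma dm_inter {E E' : Set (σ →₀ ℕ)} (h : Up E) (h' : Up E') {n : ℕ} (h1 : DM k E (n + 1))
    (h2 : DM k E' (n + 1)) (h0 : DM k (E ∪ E') n) : DM k (E ∩ E') (n + 1) := by
  rw [DM, MI_inter h h']
  rw [DM, MI_union] at h0
  exact dq_inf h1 h2 h0

lemma dm_union {E E' : Set (σ →₀ ℕ)} (h : Up E) (h' : Up E') {n : ℕ} (h1 : DM k E n)
    (h2 : DM k E' n) (h0 : DM k (E ∩ E') (n + 1)) : DM k (E ∪ E') n := by
  rw [DM, MI_union]
  rw [DM, MI_inter h h'] at h0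
  exact dq_sup h1 h2 h0

/-- Membership does not depend on the variable `y`. -/
def Ind (E : Set (σ →₀ ℕ)) (y : σ) : Prop := ∀ m, m + Finsupp.single y 1 ∈ E → m ∈ E

lemma Ind.reg {E : Set (σ →₀ ℕ)} {y : σ} (h : Ind E y) (hE : Up E) (c : MvPolynomial σ k)
    (hc : c * X y ∈ MI k E) : c ∈ MI k E := by
  rw [mem_MI hE] at hc ⊢
  exact fun m hm => h m (hc _ (supp_mul_mono.2 hm))

lemma MI_var (E : Set (σ →₀ ℕ)) (y : σ) :
    MI k (E ∪ VG {y}) = MI k E ⊔ Ideal.span {X y} := by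
  rw [MI_union, MI_VG]
  simp

lemma Up.union {E E' : Set (σ →₀ ℕ)} (h : Up E) (h' : Up E') : Up (E ∪ E') :=
  fun m hm m' => hm.imp (h m · m') (h' m · m')

lemma Ind.var {E : Set (σ →₀ ℕ)} {y : σ} (h : Ind E y) {G : Finset σ} (hy : y ∉ G) :
    Ind (E ∪ VG G) y := by
  rintro m (hm | ⟨g, hg, hm⟩)
  · exact Or.inl (h m hm)
  · have : g ≠ y := fun e => hy (e ▸ hg)
    exact Or.inr ⟨g, hg, by simpa [Finsupp.single_eq_of_ne this] using hm⟩

lemma dm_ind (Y : Finset σ) : ∀ E : Set (σ →₀ ℕ), Up E → (∀ y ∈ Y, Ind E y) → DM k E Y.card := by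
  classical
  induction Y using Finset.induction_on with
  | empty => exact fun E _ _ i hi => by simp at hi
  | insert y Y hy ih =>
    intro E hE h
    rw [Finset.card_insert_of_notMem hy]
    refine dq_up _ (X y) ((h y (by simp)).reg hE) (Ideal.subset_span (Set.mem_range_self y)) ?_
    rw [← MI_var]
    exact ih _ (Up.union hE (VG_up _)) fun z hz => (h z (by simp [hz])).var
      (by simpa using fun e : z = y => hy (e ▸ hz))

lemma dm_down (Y : Finset σ) {E : Set (σ →₀ ℕ)} (hE : Up E) : ∀ n, (∀ y ∈ Y, Ind E y) →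
    DM k E (n + Y.card) → DM k (E ∪ VG Y) n := by
  classical
  induction Y using Finset.induction_on with
  | empty => exact fun n _ h => h.congr fun m => by simp [VG]
  | insert y Y hy ih =>
    intro n h h1
    rw [Finset.card_insert_of_notMem hy, ← add_assoc, add_right_comm] at h1
    have h2 := dq_down _ (X y) (((h y (by simp)).var hy).reg (Up.union hE (VG_up _)))
      (ih (n + 1) (fun z hz => h z (by simp [hz])) h1)
    rw [← MI_var] at h2
    refine DM.congr h2 fun m => ?_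
    simp only [VG, Set.mem_union, Set.mem_ofPred_eq, Finset.mem_insert, exists_eq_or_imp,
      Finset.mem_singleton, exists_eq_left]
    rw [or_assoc, or_comm (a := m y ≠ 0)]

lemma dm_socle [Fintype σ] {E : Set (σ →₀ ℕ)} (hE : Up E) (h : DM k E 1) (f : σ →₀ ℕ)
    (hf : ∀ s, ∃ n, f + Finsupp.single s n ∈ E) : f ∈ E := by
  classical
  have key : ∀ G : Finset σ, ∀ f : σ →₀ ℕ, (∀ s ∈ G, ∃ n, f + Finsupp.single s n ∈ E) →
      (∀ s ∉ G, f + Finsupp.single s 1 ∈ E) → f ∈ E := by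
    intro G
    induction G using Finset.induction_on with
    | empty =>
      intro f _ h1
      refine (mem_MI hE).1 (dq_socle h (monomial f 1) fun r hr => ?_) f (by simp)
      refine Submodule.span_induction (p := fun r _ => r * monomial f 1 ∈ MI k E) ?_ (by simp)
        (fun a b _ _ ha hb => by rw [add_mul]; exact Ideal.add_mem _ ha hb)
        (fun a b _ hb => by rw [smul_eq_mul, mul_assoc]; exact Ideal.mul_mem_left _ _ hb) hr
      rintro _ ⟨s, rfl⟩
      rw [X, monomial_mul, add_comm, mul_one]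
      exact mono_mem_MI (h1 s (by simp))
    | insert s G hs ih =>
      intro f h1 h2
      obtain ⟨n, hn⟩ := h1 s (by simp)
      induction n with
      | zero => simpa using hn
      | succ n ih' =>
        refine ih' (ih _ (fun s' hs' => ?_) fun s' hs' => ?_)
        · obtain ⟨n', hn'⟩ := h1 s' (by simp [hs'])
          exact ⟨n', by rw [add_right_comm]; exact hE _ hn' _⟩
        · by_cases e : s' = s
          · rwa [e, add_assoc, ← Finsupp.single_add]
          · rw [add_right_comm]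
            exact hE _ (h2 s' (by simp [e, hs'])) _
  exact key Finset.univ f (fun s _ => hf s) fun s hs => absurd (Finset.mem_univ s) hs

lemma not_dm [Fintype σ] (Y : Finset σ) {E : Set (σ →₀ ℕ)} (hE : Up E) (hY : ∀ y ∈ Y, Ind E y)
    (f : σ →₀ ℕ) (h1 : f ∉ E) (h2 : ∀ y ∈ Y, f y = 0)
    (h3 : ∀ s ∉ Y, ∃ n, f + Finsupp.single s n ∈ E) : ¬ DM k E (Y.card + 1) := by
  intro h
  rw [add_comm] at h
  rcases dm_socle (Up.union hE (VG_up _)) (dm_down Y hE 1 hY h) f (fun s => by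
    by_cases hs : s ∈ Y
    · exact ⟨1, Or.inr ⟨s, hs, by simp⟩⟩
    · exact (h3 s hs).imp fun n hn => Or.inl hn) with h4 | ⟨g, hg, h4⟩
  · exact h1 h4
  · exact h4 (h2 g hg)

end Pool.Agent.Dep
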