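import Pool.Agent.H.MP_b90300_al.A
import Pool.Agent.H.MP_0c67ff_ag.C

set_option autoImplicit false

namespace Pool.Agent.Dep

open Pool.Agent.PdOne Pool.Agent.PdFun Pool.Agent.PdSym MvPolynomial

variable {σ : Type} {k : Type} [Field k]

/-- Exponents of a power of a monomial ideal. -/
def Pw (E : Set (σ →₀ ℕ)) : ℕ → Set (σ →₀ ℕ)
  | 0 => Set.univ
  | t + 1 => {m | ∃ a ∈ Pw E t, ∃ b ∈ E, a + b = m}

lemma MI_Pw (E : Set (σ →₀ ℕ)) : ∀ t, MI k E ^ t = MI k (Pw E t)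
  | 0 => by
    rw [pow_zero, Ideal.one_eq_top, eq_comm, eq_top_iff]
    exact fun f _ => (mem_MI fun _ _ _ => Set.mem_univ _).2 fun _ _ => trivial
  | t + 1 => by
    rw [pow_succ, MI_Pw E t]
    exact MI_mul fun _ => Iff.rfl

lemma Pw_dep {G : Finset σ} {E : Set (σ →₀ ℕ)} (h : Dep G E) : ∀ t, Dep G (Pw E t)
  | 0 => fun _ _ _ _ => trivial
  | t + 1 => by
    classical
    rintro _ ⟨a, ha, b, hb, rfl⟩ m' hm
    have hle : b.filter (· ∈ G) ≤ m' := fun s => by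
      rw [Finsupp.filter_apply]
      split_ifs with hs
      · exact le_trans (by simp) (hm s hs)
      · exact Nat.zero_le _
    obtain ⟨c, rfl⟩ := le_iff_exists_add.1 hle
    refine ⟨c, Pw_dep h t a ha c fun g hg => ?_, _, h b hb _ fun g hg => ?_, add_comm _ _⟩
    · have := hm g hg
      simp only [Finsupp.add_apply, Finsupp.filter_apply, if_pos hg] at this
      omega
    · simp [hg]

lemma dep_ind {G : Finset σ} {E : Set (σ →₀ ℕ)} (h : Dep G E) {y : σ} (hy : y ∉ G) : Ind E y :=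
  fun m hm => h _ hm m fun g hg => by
    have : g ≠ y := fun e => hy (e ▸ hg)
    simp [Finsupp.single_eq_of_ne this]

lemma Pw_single {E : Set (σ →₀ ℕ)} {g : σ} {n : ℕ} (h : Finsupp.single g n ∈ E) :
    ∀ t, Finsupp.single g (n * t) ∈ Pw E t
  | 0 => trivial
  | t + 1 => ⟨_, Pw_single h t, _, h, by rw [← Finsupp.single_add, Nat.mul_succ]⟩

/-- Degree in a set of variables. -/
def dg (G : Finset σ) (m : σ →₀ ℕ) : ℕ := ∑ g ∈ G, m g

lemma dg_add (G : Finset σ) (a b : σ →₀ ℕ) : dg G (a + b) = dg G a + dg G b := by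
  simp [dg, Finset.sum_add_distrib]

lemma dg_mono {G : Finset σ} {a b : σ →₀ ℕ} (h : ∀ g ∈ G, a g ≤ b g) : dg G a ≤ dg G b :=
  Finset.sum_le_sum h

lemma le_dg {G : Finset σ} (m : σ →₀ ℕ) {g : σ} (h : g ∈ G) : m g ≤ dg G m :=
  Finset.single_le_sum (f := fun g => m g) (fun _ _ => Nat.zero_le _) h

lemma dg_zero {G : Finset σ} {m : σ →₀ ℕ} (h : ∀ g ∈ G, m g = 0) : dg G m = 0 :=
  Finset.sum_eq_zero h

lemma dg_single {G : Finset σ} {g : σ} (h : g ∈ G) (n : ℕ) : dg G (Finsupp.single g n) = n := by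
  classical
  simp [dg, Finsupp.single_apply, h]

lemma dg_split {G : Finset σ} {x : σ} (hx : x ∉ G) (a : ℕ) : ∀ (n : ℕ) (m : σ →₀ ℕ), a ≤ m x →
    n ≤ dg G m → ∃ m' b, m' + b = m ∧ b x = a ∧ dg G b = n
  | 0, m, h, _ => by
    obtain ⟨c, hc⟩ := le_iff_exists_add.1 (Finsupp.single_le_iff.2 h)
    exact ⟨c, Finsupp.single x a, by rw [hc, add_comm], by simp, dg_zero fun g hg =>
      Finsupp.single_eq_of_ne fun e => hx (e ▸ hg)⟩
  | n + 1, m, h, h' => by
    obtain ⟨m', b, rfl, h1, h2⟩ := dg_split hx a n m h (by omega)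
    rw [dg_add] at h'
    obtain ⟨g, hg, h3⟩ : ∃ g ∈ G, 1 ≤ m' g := by
      by_contra h3
      push Not at h3
      have := dg_zero (G := G) (m := m') fun g hg => by have := h3 g hg; omega
      omega
    obtain ⟨c, rfl⟩ := le_iff_exists_add.1 (Finsupp.single_le_iff.2 h3)
    have hne : x ≠ g := fun e => hx (e ▸ hg)
    exact ⟨c, b + Finsupp.single g 1, by abel, by simp [h1, Finsupp.single_eq_of_ne hne],
      by rw [dg_add, dg_single hg, h2]⟩

section pure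
variable (x : σ) (G : Finset σ) (c : ℕ) (A : ℕ → Prop)

/-- Exponents of an almost normal primary ideal. -/
def TE : Set (σ →₀ ℕ) := {m | c + 1 ≤ m x + dg G m ∨ (m x + dg G m = c ∧ A (m x))}

variable {x G c A}

lemma TE_dep [DecidableEq σ] : Dep (insert x G) (TE x G c A) := by
  intro m hm m' h
  have h1 := h x (by simp)
  have h2 : dg G m ≤ dg G m' := dg_mono fun g hg => h g (by simp [hg])
  rcases hm with hm | ⟨h3, h4⟩
  · left; omega
  by_cases e : m' x + dg G m' = c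
  · exact Or.inr ⟨e, by rwa [show m' x = m x by omega]⟩
  · left; omega

lemma TE_low : ∀ {t : ℕ} {m : σ →₀ ℕ}, m ∈ Pw (TE x G c A) t → c * t ≤ m x + dg G m ∧
    (m x + dg G m = c * t → SumS A t (m x))
  | 0, m, _ => ⟨by simp, fun h => by change m x = 0; omega⟩
  | t + 1, _, ⟨a, ha, b, hb, rfl⟩ => by
    obtain ⟨h1, h2⟩ := TE_low ha
    rw [Finsupp.add_apply, dg_add, Nat.mul_succ]
    rcases hb with hb | ⟨h3, h4⟩
    · exact ⟨by omega, fun _ => by omega⟩
    · exact ⟨by omega, fun _ => ⟨_, h4, _, h2 (by omega), add_comm _ _⟩⟩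

lemma TE_mem (hx : x ∉ G) (h0 : A 0) (hc : A c) (hA : ∀ a, A a → a ≤ c) : ∀ (t : ℕ) (m : σ →₀ ℕ),
    (c * (t + 1) + 1 ≤ m x + dg G m ∨ (m x + dg G m = c * (t + 1) ∧ SumS A (t + 1) (m x))) →
      m ∈ Pw (TE x G c A) (t + 1)
  | 0, m, h => ⟨0, trivial, m, by simpa [TE, SumS.one] using h, by simp⟩
  | t + 1, m, h => by
    have key : ∀ a, A a → a ≤ m x → c - a ≤ dg G m → (∀ a' n, a' + a = m x →
        n + (c - a) = dg G m → c * (t + 1) + 1 ≤ a' + n ∨
          (a' + n = c * (t + 1) ∧ SumS A (t + 1) a')) → m ∈ Pw (TE x G c A) (t + 1 + 1) := by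
      intro a ha h1 h2 h3
      obtain ⟨m', b, rfl, h4, h5⟩ := dg_split hx a _ m h1 h2
      have := hA a ha
      exact ⟨m', TE_mem hx h0 hc hA t m' (h3 _ _ (by simp [h4]) (by rw [dg_add, h5])), b,
        Or.inr ⟨by omega, h4 ▸ ha⟩, rfl⟩
    have h5 : c ≤ c * (t + 1) := Nat.le_mul_of_pos_right _ (by omega)
    rw [Nat.mul_succ] at h
    rcases h with h | ⟨h, a, ha, r, hr, e⟩
    · by_cases h1 : c ≤ m x
      · exact key c hc h1 (by omega) fun _ _ _ _ => Or.inl (by omega)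
      · exact key 0 h0 (by omega) (by omega) fun _ _ _ _ => Or.inl (by omega)
    · have := hr.le hA
      have := hA a ha
      exact key a ha (by omega) (by omega) fun a' _ _ _ =>
        Or.inr ⟨by omega, by rwa [show a' = r by omega]⟩

end pure

section mid
variable (x u v : σ) (L : Finset σ) (c p K : ℕ)

/-- Exponents of the middle primary ideal. -/
def ME : Set (σ →₀ ℕ) := {m | 4 * c + 1 ≤ 2 * (2 * m x + m u + m v) + dg L m ∨
  (dg L m = 0 ∧ 2 * m x + m u + m v = 2 * c ∧ ((m x = 0 ∧ (m v + 1 = c ∨ m v + 1 = c + p)) ∨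
    ∃ s, 1 ≤ s ∧ s ≤ 2 * p ∧ m x = K + s + 1 ∧ m v + m x + 1 = c + s))}

variable {x u v L c p K}

lemma ME_dep [DecidableEq σ] : Dep (insert x (insert u (insert v L))) (ME x u v L c p K) := by
  intro m hm m' h
  have h1 := h x (by simp)
  have h1' := h u (by simp)
  have h1'' := h v (by simp)
  have h2 : dg L m ≤ dg L m' := dg_mono fun g hg => h g (by simp [hg])
  rcases hm with hm | ⟨h3, h4, h5⟩
  · left; omega
  by_cases e : dg L m' = 0 ∧ 2 * m' x + m' u + m' v = 2 * c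
  · exact Or.inr ⟨e.1, e.2, by rwa [show m' x = m x by omega, show m' v = m v by omega]⟩
  · left; omega

lemma ME_low : ∀ {t : ℕ} {m : σ →₀ ℕ}, m ∈ Pw (ME x u v L c p K) t →
    4 * (c * t) ≤ 2 * (2 * m x + m u + m v) + dg L m ∧
      (2 * (2 * m x + m u + m v) + dg L m = 4 * (c * t) →
        (m x = 0 ∧ ∃ j, m v + t = c * t + p * j) ∨ (∃ s j, 1 ≤ s ∧ s ≤ 2 * p ∧ m x = K + s + 1 ∧
          m v + m x + t = c * t + s + p * j) ∨ 2 * K ≤ m x)
  | 0, m, _ => ⟨by simp, fun h => Or.inl ⟨by omega, 0, by omega⟩⟩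
  | t + 1, _, ⟨a, ha, b, hb, rfl⟩ => by
    obtain ⟨h1, h2⟩ := ME_low ha
    simp only [Finsupp.add_apply, dg_add, Nat.mul_succ c]
    rcases hb with hb | ⟨h3, h4, h5⟩
    · exact ⟨by omega, fun _ => by omega⟩
    refine ⟨by omega, fun h => ?_⟩
    rcases h2 (by omega) with ⟨h6, j, h7⟩ | ⟨s, j, h6, h7, h8, h9⟩ | h6
    · rcases h5 with ⟨h5, h8 | h8⟩ | ⟨s, s1, s2, s3, s4⟩
      · exact Or.inl ⟨by omega, j, by omega⟩
      · exact Or.inl ⟨by omega, j + 1, by rw [Nat.mul_succ]; omega⟩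
      · exact Or.inr (Or.inl ⟨s, j, s1, s2, by omega, by omega⟩)
    · rcases h5 with ⟨h5, h10 | h10⟩ | ⟨s', s1, s2, s3, s4⟩
      · exact Or.inr (Or.inl ⟨s, j, h6, h7, by omega, by omega⟩)
      · exact Or.inr (Or.inl ⟨s, j + 1, h6, h7, by omega, by rw [Nat.mul_succ]; omega⟩)
      · exact Or.inr (Or.inr (by omega))
    · exact Or.inr (Or.inr (by omega))

variable (x u v) in
/-- An exponent in three variables. -/
noncomputable def ex3 (a α β : ℕ) : σ →₀ ℕ :=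
  Finsupp.single x a + Finsupp.single u α + Finsupp.single v β

lemma ex3_add (a α β a' α' β' : ℕ) :
    ex3 x u v a α β + ex3 x u v a' α' β' = ex3 x u v (a + a') (α + α') (β + β') := by
  simp only [ex3, Finsupp.single_add]; abel

variable (hxu : x ≠ u) (hxv : x ≠ v) (huv : u ≠ v)

include hxu hxv in
lemma ex3_x (a α β : ℕ) : ex3 x u v a α β x = a := by simp [ex3, hxu, hxv]
include hxu huv in
lemma ex3_u (a α β : ℕ) : ex3 x u v a α β u = α := by simp [ex3, hxu.symm, huv]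
include hxv huv in
lemma ex3_v (a α β : ℕ) : ex3 x u v a α β v = β := by simp [ex3, hxv.symm, huv.symm]
lemma ex3_o (a α β : ℕ) {s : σ} (h1 : s ≠ x) (h2 : s ≠ u) (h3 : s ≠ v) :
    ex3 x u v a α β s = 0 := by simp [ex3, h1, h2, h3]

variable (hL : ∀ s ∈ L, s ≠ x ∧ s ≠ u ∧ s ≠ v)

include hxu hxv huv hL in
lemma ME_gen {a α β : ℕ} (h1 : 2 * a + α + β = 2 * c) (h2 : (a = 0 ∧ (β + 1 = c ∨ β + 1 = c + p)) ∨
    ∃ s, 1 ≤ s ∧ s ≤ 2 * p ∧ a = K + s + 1 ∧ β + a + 1 = c + s) :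
    ex3 x u v a α β ∈ ME x u v L c p K := by
  refine Or.inr ⟨dg_zero fun g hg => ex3_o _ _ _ (hL g hg).1 (hL g hg).2.1 (hL g hg).2.2, ?_⟩
  rw [ex3_x hxu hxv, ex3_u hxu huv, ex3_v hxv huv]
  exact ⟨h1, h2⟩

include hxu hxv huv hL in
lemma ME_mk0 (hc : p + 1 ≤ c) : ∀ (t j α β : ℕ), j ≤ t → α + β = 2 * (c * t) →
    β + t = c * t + p * j → ex3 x u v 0 α β ∈ Pw (ME x u v L c p K) t
  | 0, _, _, _, _, _, _ => trivial
  | t + 1, 0, α, β, _, h1, h2 => by
    have h5 : t ≤ c * t := Nat.le_mul_of_pos_left _ (by omega)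
    rw [Nat.mul_succ] at h1 h2
    exact ⟨_, ME_mk0 hc t 0 (α - (c + 1)) (β - (c - 1)) (by omega) (by omega) (by omega), _,
      ME_gen hxu hxv huv hL (a := 0) (α := c + 1) (β := c - 1) (by omega) (Or.inl (by omega)),
      by rw [ex3_add]; congr 1 <;> omega⟩
  | t + 1, j + 1, α, β, h0, h1, h2 => by
    have h5 : t ≤ c * t := Nat.le_mul_of_pos_left _ (by omega)
    have h6 : p * j ≤ c * t := Nat.mul_le_mul (by omega) (by omega)
    rw [Nat.mul_succ] at h1 h2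
    rw [Nat.mul_succ] at h2
    exact ⟨_, ME_mk0 hc t j (α - (c + 1 - p)) (β - (c + p - 1)) (by omega) (by omega) (by omega),
      _, ME_gen hxu hxv huv hL (a := 0) (α := c + 1 - p) (β := c + p - 1) (by omega)
        (Or.inl (by omega)), by rw [ex3_add]; congr 1 <;> omega⟩

include hxu hxv huv hL in
lemma ME_mk1 (hp : 1 ≤ p) (hc : K + 4 * p + 1 ≤ c) {t s j : ℕ} (s1 : 1 ≤ s) (s2 : s ≤ 2 * p)
    (h : t + 1 = s + p * j) : ex3 x u v (K + s + 1) (c * (t + 1) - (K + s + 1))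
      (c * (t + 1) - (K + s + 1)) ∈ Pw (ME x u v L c p K) (t + 1) := by
  have h5 : t ≤ c * t := Nat.le_mul_of_pos_left _ (by omega)
  have : j ≤ p * j := Nat.le_mul_of_pos_left _ hp
  rw [Nat.mul_succ]
  exact ⟨_, ME_mk0 hxu hxv huv hL (by omega) t j (c * t + s - 1) (c * t + 1 - s) (by omega)
    (by omega) (by omega), _, ME_gen hxu hxv huv hL (a := K + s + 1) (α := c - K - 2 * s)
      (β := c - K - 2) (by omega) (Or.inr ⟨s, s1, s2, rfl, by omega⟩),
      by rw [ex3_add]; congr 1 <;> omega⟩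

end mid

end Pool.Agent.Dep
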