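import Pool.Agent.H.MP_b90300_al.B
import Pool.Agent.H.MP_9d9f8d_ag.E

set_option autoImplicit false

namespace Pool.Agent.Dep

open Pool.Agent.PdOne Pool.Agent.PdFun Pool.Agent.PdSym MvPolynomial

lemma sum_big {A : ℕ → Prop} {B c : ℕ} (h0 : A 0) (h : ∀ a, B ≤ a → a ≤ c → A a)
    (hc : 2 * B ≤ c) : ∀ t b, B ≤ b → b ≤ c * (t + 1) → SumS A (t + 1) b
  | 0, b, h1, h2 => SumS.one.2 (h b h1 (by simpa using h2))
  | t + 1, b, h1, h2 => by
    have h3 : c ≤ c * (t + 1) := Nat.le_mul_of_pos_right _ (by omega)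
    rw [Nat.mul_succ] at h2
    by_cases h4 : b ≤ c * (t + 1)
    · exact ⟨0, h0, b, sum_big h0 h hc t b h1 h4, by simp⟩
    by_cases h5 : c + B ≤ b
    · exact ⟨c, h c (by omega) le_rfl, b - c, sum_big h0 h hc t _ (by omega) (by omega), by omega⟩
    · exact ⟨B, h B le_rfl (by omega), b - B, sum_big h0 h hc t _ (by omega) (by omega), by omega⟩

/-- Allowed exponents of the control variable in the right component. -/
def AR (K c a : ℕ) : Prop := a = 0 ∨ (2 * K ≤ a ∧ a ≤ c)

/-- Allowed exponents of the control variable in a left component. -/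
def AL (K c p s a : ℕ) : Prop :=
  a = 0 ∨ (s ≤ p ∧ (s + 1) * a = K + s + 1) ∨ (K ≤ a ∧ a ≤ c ∧ a ≠ K + s + 1)

lemma AR_sum {K c : ℕ} : ∀ {t a : ℕ}, SumS (AR K c) t a → a = 0 ∨ 2 * K ≤ a
  | 0, _, h => Or.inl h
  | _ + 1, _, ⟨a, ha, r, hr, e⟩ => by
    have := AR_sum hr
    unfold AR at ha
    omega

lemma AL_sum {K c p s q : ℕ} (h1 : (s + 1) * q = K + s + 1) (h2 : s + 1 < q) (h3 : s + 1 < K) :
    ∀ {t a : ℕ}, SumS (AL K c p s) t a →
      a = 0 ∨ (q ≤ a ∧ a ≤ t * q ∧ s ≤ p) ∨ (K ≤ a ∧ a ≠ K + s + 1)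
  | 0, _, h => Or.inl h
  | t + 1, _, ⟨a, ha, r, hr, e⟩ => by
    have := AL_sum h1 h2 h3 hr
    rw [Nat.succ_mul]
    rcases ha with ha | ⟨h4, ha⟩ | ha
    · omega
    · obtain rfl : a = q := Nat.eq_of_mul_eq_mul_left (by omega) (ha.trans h1.symm)
      omega
    · omega

lemma exists_K (p : ℕ) : ∃ K, 2 * p + 1 < K ∧
    ∀ s ≤ 2 * p, ∃ q, (s + 1) * q = K + s + 1 ∧ s + 1 < q := by
  have h1 : 2 * p + 2 ≤ (2 * p + 2).factorial := Nat.self_le_factorial _
  refine ⟨(2 * p + 2).factorial * (2 * p + 2).factorial, by nlinarith, fun s hs => ?_⟩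
  obtain ⟨e, he⟩ := Nat.dvd_factorial (Nat.succ_pos s) (show s + 1 ≤ 2 * p + 2 by omega)
  have h2 : 0 < e := Nat.pos_of_ne_zero fun h => by rw [h] at he; omega
  refine ⟨e * (2 * p + 2).factorial + 1, by nth_rw 2 [he]; simp only [Nat.succ_eq_add_one]; ring, ?_⟩
  have : (2 * p + 2).factorial ≤ e * (2 * p + 2).factorial := Nat.le_mul_of_pos_left _ h2
  omega

variable {σ : Type} [Fintype σ] [DecidableEq σ] (kd ix : σ → ℕ) (φ : ℕ → ℕ)

/-- Variables of the right component. -/
def GR : Finset σ := Finset.univ.filter fun s => kd s = 2 ∨ kd s = 3 ∨ kd s = 5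
/-- The private variables. -/
def GP : Finset σ := Finset.univ.filter fun s => kd s = 5
/-- Variables of a left component. -/
def GLe (q : σ) : Finset σ := Finset.univ.filter fun s =>
  kd s = 1 ∨ (kd s = 4 ∧ φ (ix q) ≤ ix s + 1) ∨ (kd s = 5 ∧ s ≠ q)
/-- Free variables. -/
def GF (a n : ℕ) : Finset σ := Finset.univ.filter fun s => kd s = a ∧ ix s < n

variable (x u v : σ) (K p : ℕ)

/-- The minimal primes. -/
def GG : Option (Option {q // kd q = 5}) → Finset σ
  | none => insert x (GR kd)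
  | some none => insert x (insert u (insert v (GP kd)))
  | some (some q) => insert x (GLe kd ix φ q)

/-- The primary components. -/
def EC : Option (Option {q // kd q = 5}) → Set (σ →₀ ℕ)
  | none => TE x (GR kd) (4 * K + 4 * p) (AR K (4 * K + 4 * p))
  | some none => ME x u v (GP kd) (4 * K + 4 * p) p K
  | some (some q) => TE x (GLe kd ix φ q) (4 * K + 4 * p) (AL K (4 * K + 4 * p) p (ix q))

variable {kd ix φ x u v K p}

lemma EC_dep (e : Option (Option {q // kd q = 5})) :
    Dep (GG kd ix φ x u v e) (EC kd ix φ x u v K p e) := by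
  rcases e with _ | _ | q
  · exact TE_dep
  · exact ME_dep
  · exact TE_dep

lemma EC_single (e : Option (Option {q // kd q = 5})) : ∀ g ∈ GG kd ix φ x u v e,
    Finsupp.single g (4 * (4 * K + 4 * p) + 1) ∈ EC kd ix φ x u v K p e := by
  intro g hg
  rcases e with _ | _ | q <;> left <;> simp only [GG, Finset.mem_insert] at hg
  · rcases hg with rfl | hg
    · rw [Finsupp.single_eq_same]; omega
    · rw [dg_single hg]; omega
  · rcases hg with rfl | rfl | rfl | hg
    · rw [Finsupp.single_eq_same]; omega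
    · rw [Finsupp.single_eq_same]; omega
    · rw [Finsupp.single_eq_same]; omega
    · rw [dg_single hg]; omega
  · rcases hg with rfl | hg
    · rw [Finsupp.single_eq_same]; omega
    · rw [dg_single hg]; omega

lemma EC_sub (hK : 1 ≤ K) (e : Option (Option {q // kd q = 5})) :
    EC kd ix φ x u v K p e ⊆ VG (GG kd ix φ x u v e) := by
  intro m hm
  by_contra h
  have h1 : ∀ g ∈ GG kd ix φ x u v e, m g = 0 := fun g hg => by_contra fun h' => h ⟨g, hg, h'⟩
  rcases e with _ | _ | q <;> simp only [GG, Finset.forall_mem_insert] at h1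
  · have := dg_zero h1.2
    rcases hm with hm | hm <;> omega
  · have := dg_zero h1.2.2.2
    rcases hm with hm | hm <;> omega
  · have := dg_zero h1.2
    rcases hm with hm | hm <;> omega

section main
variable {n : ℕ} (hx : kd x = 0) (hu : kd u = 1) (hv : kd v = 2)
  (hext : ∀ s s', kd s = kd s' → ix s = ix s' → s = s')
  (hk : ∀ s, (kd s ≤ 2 ∧ ix s = 0) ∨ ((kd s = 3 ∨ kd s = 4) ∧ ix s < n) ∨
    (kd s = 5 ∧ 1 ≤ ix s ∧ ix s ≤ 2 * p))
  (hex : ∀ a i, ((a = 3 ∨ a = 4) ∧ i < n) ∨ (a = 5 ∧ 1 ≤ i ∧ i ≤ 2 * p) →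
    ∃ s, kd s = a ∧ ix s = i)
  (hφ : ∀ s, 1 ≤ s → s ≤ 2 * p → 1 ≤ φ s ∧ φ s ≤ n) (hp : 1 ≤ p)

include hx hu hv hk hex hφ hp in
lemma GG_inj (e e' : Option (Option {q // kd q = 5}))
    (h : GG kd ix φ x u v e ⊆ GG kd ix φ x u v e') : e = e' := by
  have h1 := hφ 1 le_rfl (by omega)
  obtain ⟨y, hy, -⟩ := hex 3 0 (by omega)
  obtain ⟨w, hw, hw'⟩ := hex 4 (n - 1) (by omega)
  have ne : ∀ s s', kd s ≠ kd s' → s ≠ s' := fun s s' h e => h (e ▸ rfl)
  have hq : ∀ q : {q // kd q = 5}, φ (ix q) ≤ n := fun q => by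
    have := hk q; have := q.2; exact (hφ _ (by omega) (by omega)).2
  rcases e with _ | _ | q <;> rcases e' with _ | _ | q'
  · rfl
  · have := @h y (by simp [GG, GR, hy])
    simp [GG, GP, hy, ne y x (by omega), ne y u (by omega), ne y v (by omega)] at this
  · have := @h v (by simp [GG, GR, hv])
    simp [GG, GLe, hv, ne v x (by omega)] at this
  · have := @h u (by simp [GG])
    simp [GG, GR, hu, ne u x (by omega)] at this
  · rfl
  · have := @h v (by simp [GG])
    simp [GG, GLe, hv, ne v x (by omega)] at this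
  · have := @h u (by simp [GG, GLe, hu])
    simp [GG, GR, hu, ne u x (by omega)] at this
  · have := @h w (by have := hq q; simp [GG, GLe, hw]; omega)
    simp [GG, GP, hw, ne w x (by omega), ne w u (by omega), ne w v (by omega)] at this
  · by_contra h2
    have h3 : q'.1 ≠ q.1 := fun e => h2 (by rw [Subtype.ext e])
    have := @h q' (by simp [GG, GLe, q'.2, h3])
    simp [GG, GLe, q'.2, ne q' x (by have := q'.2; omega)] at this

omit [DecidableEq σ] in
include hext hex in
lemma card_GF {a j : ℕ} (ha : a = 3 ∨ a = 4) (hj : j ≤ n) : (GF kd ix a j).card = j := by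
  rw [← Finset.card_range j]
  refine Finset.card_bij (fun s _ => ix s) (fun s hs => ?_) (fun s hs s' hs' e => ?_) fun i hi => ?_
  · simpa using (Finset.mem_filter.1 hs).2.2
  · exact hext s s' ((Finset.mem_filter.1 hs).2.1.trans (Finset.mem_filter.1 hs').2.1.symm) e
  · obtain ⟨s, h1, h2⟩ := hex a i (Or.inl ⟨ha, by simp at hi; omega⟩)
    exact ⟨s, by simpa [GF, h1, h2] using hi, h2⟩

variable (hK : 2 * p + 1 < K) (hq : ∀ s ≤ 2 * p, ∃ q, (s + 1) * q = K + s + 1 ∧ s + 1 < q)
  (hper : ∀ t, p + 1 ≤ t → φ (t + p) = φ t)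

include hx in
lemma L_mem (hK : 2 * p + 1 < K) {q : σ} (h : ix q ≤ 2 * p) (t : ℕ) (m : σ →₀ ℕ)
    (hm : (4 * K + 4 * p) * (t + 1) + 1 ≤ m x + dg (GLe kd ix φ q) m ∨
      (m x + dg (GLe kd ix φ q) m = (4 * K + 4 * p) * (t + 1) ∧
        SumS (AL K (4 * K + 4 * p) p (ix q)) (t + 1) (m x))) :
    m ∈ Pw (TE x (GLe kd ix φ q) (4 * K + 4 * p) (AL K (4 * K + 4 * p) p (ix q))) (t + 1) := by
  refine TE_mem (by simp [GLe, hx]) (Or.inl rfl) (Or.inr (Or.inr (by omega))) ?_ t m hm
  rintro a (h1 | ⟨-, h1⟩ | h1)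
  · omega
  · have : a ≤ (ix q + 1) * a := Nat.le_mul_of_pos_left _ (by omega)
    omega
  · omega

include hx hu hv hk hK hq hper in
lemma key1 {t : ℕ} {m : σ →₀ ℕ} (q : {q // kd q = 5})
    (h1 : m ∉ Pw (EC kd ix φ x u v K p none) (t + 1))
    (h2 : m ∈ Pw (EC kd ix φ x u v K p (some none)) (t + 1))
    (h3 : m ∉ Pw (EC kd ix φ x u v K p (some (some q))) (t + 1)) : φ (ix q) = φ (t + 1) := by
  have hq5 : 1 ≤ ix q ∧ ix q ≤ 2 * p := by have := hk q; have := q.2; omega
  have a1 := mt (TE_mem (x := x) (G := GR kd) (c := 4 * K + 4 * p) (A := AR K (4 * K + 4 * p))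
    (by simp [GR, hx]) (Or.inl rfl) (Or.inr (by omega))
    (by rintro a (h | h) <;> omega) t m) h1
  have a3 := mt (L_mem hx hK hq5.2 t m) h3
  obtain ⟨a2, a4⟩ := ME_low h2
  have b1 : m v + dg (GP kd) m ≤ dg (GR kd) m := by
    rw [dg, ← Finset.sum_insert (by simp [GP, hv])]
    refine Finset.sum_le_sum_of_subset fun s hs => ?_
    simp only [Finset.mem_insert, GP, GR, Finset.mem_filter, Finset.mem_univ, true_and] at hs ⊢
    rcases hs with rfl | hs <;> omega
  have b2 : m u ≤ dg (GLe kd ix φ q) m := le_dg m (by simp [GLe, hu])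
  rw [not_or, not_and] at a1 a3
  have c1 := a1.2 (by omega)
  have c3 := a3.2 (by omega)
  rcases a4 (by omega) with ⟨h, -⟩ | ⟨s, j, s1, s2, s3, s4⟩ | h
  · exact absurd (by simpa [h] using SumS.mul (A := AR K (4 * K + 4 * p)) (Or.inl rfl) (t + 1)) c1
  · obtain rfl : s = ix q := by
      by_contra h
      exact c3 ((SumS.one.2 (Or.inr (Or.inr (by omega)) : AL K _ p (ix q) (m x))).mono
        (Or.inl rfl) (by omega))
    by_cases hs : ix q ≤ p
    · obtain ⟨r, hr, -⟩ := hq _ s2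
      have : t + 1 ≤ ix q := by
        by_contra h
        refine c3 (SumS.mono (Or.inl rfl) (s := ix q + 1) ?_ (by omega))
        rw [s3, ← hr]
        exact SumS.mul (Or.inr (Or.inl ⟨hs, hr⟩)) _
      rw [show t + 1 = ix q by omega]
    · rw [show t + 1 = ix q + p * j by omega]
      clear s4
      induction j with
      | zero => simp
      | succ j ih => rw [Nat.mul_succ, ← add_assoc, hper _ (by omega), ih]
  · exact absurd (sum_big (Or.inl rfl) (fun a h1 h2 => Or.inr ⟨h1, h2⟩) (by omega) t _ h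
      (by omega)) c1

include hx hu hv hext hk hex hφ hp hK hq hper in
theorem depth_eq {k : Type} [Field k] (t : ℕ) :
    DM k {m | ∀ e, m ∈ Pw (EC kd ix φ x u v K p e) (t + 1)} (φ (t + 1)) ∧
      ¬ DM k {m | ∀ e, m ∈ Pw (EC kd ix φ x u v K p e) (t + 1)} (φ (t + 1) + 1) := by
  obtain ⟨s0, s1, s2, s3, ⟨j, s4⟩, s5, -⟩ := exists_s0 hp hper (t + 1) (by omega)
  obtain ⟨q0, q1, rfl⟩ := hex 5 s0 (Or.inr ⟨rfl, s1, s2⟩)
  obtain ⟨r, hr⟩ : ∃ r, φ (t + 1) = r + 1 := ⟨φ (t + 1) - 1, by have := hφ _ s1 s2; omega⟩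
  have hrn : r + 1 ≤ n := by have := hφ _ s1 s2; omega
  have ne : ∀ s s', kd s ≠ kd s' → s ≠ s' := fun s s' h e => h (e ▸ rfl)
  have dep := fun e => Pw_dep (EC_dep (φ := φ) (ix := ix) (x := x) (u := u) (v := v) (K := K)
    (p := p) (kd := kd) e) (t + 1)
  set F := fun e => Pw (EC kd ix φ x u v K p e) (t + 1) with hF
  have upI : Up {m | ∀ e, m ∈ F (some e)} := fun m hm m' e => (dep _).up m (hm e) m'
  have d1 : DM k (F none) (r + 1) := by
    refine (dm_ind (GF kd ix 4 n) _ (dep _).up fun y hy => dep_ind (dep _) ?_).mono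
      (by rw [card_GF hext hex (by omega) le_rfl]; exact hrn)
    have := (Finset.mem_filter.1 hy).2.1
    simp [GG, GR, this, ne y x (by omega)]
  have d2 : DM k {m | ∀ e, m ∈ F (some e)} (r + 1) := by
    refine (dm_ind (GF kd ix 3 n) _ upI fun y hy m hm e => dep_ind (dep _) ?_ m (hm e)).mono
      (by rw [card_GF hext hex (by omega) le_rfl]; exact hrn)
    have := (Finset.mem_filter.1 hy).2.1
    rcases e with _ | q <;>
      simp [GG, GP, GLe, this, ne y x (by omega), ne y u (by omega), ne y v (by omega)]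
  have ind : ∀ y ∈ GF kd ix 4 r, Ind (F none ∪ {m | ∀ e, m ∈ F (some e)}) y := by
    intro y hy m hm
    obtain ⟨h4, h5⟩ := (Finset.mem_filter.1 hy).2
    have i1 : Ind (F none) y := dep_ind (dep _) (by simp [GG, GR, h4, ne y x (by omega)])
    have i2 : Ind (F (some none)) y := dep_ind (dep _)
      (by simp [GG, GP, h4, ne y x (by omega), ne y u (by omega), ne y v (by omega)])
    by_cases h1 : m ∈ F none
    · exact Or.inl h1
    rcases hm with hm | hm
    · exact Or.inl (i1 m hm)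
    have h2 := i2 m (hm none)
    refine Or.inr fun e => ?_
    rcases e with _ | q
    · exact h2
    by_contra h3
    have h6 := key1 hx hu hv hk hK hq hper q h1 h2 h3
    refine h3 (dep_ind (dep _) ?_ m (hm (some q)))
    simp [GG, GLe, h4, ne y x (by omega)]
    omega
  have eq : ∀ m, m ∈ F none ∩ {m | ∀ e, m ∈ F (some e)} ↔ m ∈ {m | ∀ e, m ∈ F e} := fun m =>
    ⟨fun h e => by rcases e with _ | e; exacts [h.1, h.2 e], fun h => ⟨h _, fun e => h _⟩⟩
  have hc := card_GF hext hex (a := 4) (j := r) (by omega) (by omega)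
  rw [hr]
  refine ⟨(dm_inter (dep _).up upI d1 d2 (hc ▸ dm_ind _ _ (Up.union (dep _).up upI) ind)).congr eq,
    fun h => ?_⟩
  have hxu := ne x u (by omega)
  have hxv := ne x v (by omega)
  have huv := ne u v (by omega)
  have hT : 4 * K + 4 * p ≤ (4 * K + 4 * p) * (t + 1) := Nat.le_mul_of_pos_right _ (by omega)
  set f := ex3 x u v (K + ix q0 + 1) ((4 * K + 4 * p) * (t + 1) - (K + ix q0 + 1))
    ((4 * K + 4 * p) * (t + 1) - (K + ix q0 + 1))
  have f0 : ∀ s, 3 ≤ kd s → f s = 0 := fun s hs =>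
    ex3_o _ _ _ (ne s x (by omega)) (ne s u (by omega)) (ne s v (by omega))
  have fx : f x = K + ix q0 + 1 := ex3_x hxu hxv _ _ _
  have one : ∀ (G : Finset σ) (g : σ), g ∈ G → (∀ s ∈ G, s = g ∨ 3 ≤ kd s) → dg G f = f g :=
    fun G g hg h => Finset.sum_eq_single_of_mem g hg fun s hs h' => f0 s ((h s hs).resolve_left h')
  have fR : dg (GR kd) f = (4 * K + 4 * p) * (t + 1) - (K + ix q0 + 1) := by
    rw [one _ v (by simp [GR, hv]), ex3_v hxv huv]
    intro s hs
    have := (Finset.mem_filter.1 hs).2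
    by_cases e : kd s = 2
    · exact Or.inl (hext s v (by omega) (by have := hk s; have := hk v; omega))
    · omega
  have fL : ∀ q, dg (GLe kd ix φ q) f = (4 * K + 4 * p) * (t + 1) - (K + ix q0 + 1) := by
    intro q
    rw [one _ u (by simp [GLe, hu]), ex3_u hxu huv]
    intro s hs
    have := (Finset.mem_filter.1 hs).2
    by_cases e : kd s = 1
    · exact Or.inl (hext s u (by omega) (by have := hk s; have := hk u; omega))
    · omega
  have g1 : f ∉ F none := fun h => by
    have := AR_sum ((TE_low h).2 (by omega))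
    omega
  have g2 : f ∈ F (some none) := ME_mk1 hxu hxv huv (fun s hs => by
    have := (Finset.mem_filter.1 hs).2
    exact ⟨ne s x (by omega), ne s u (by omega), ne s v (by omega)⟩) hp (by omega) s1 s2 s4
  have g3 : f ∉ F (some (some ⟨q0, q1⟩)) := fun h => by
    obtain ⟨c, hc1, hc2⟩ := hq _ s2
    have h7 := fL q0
    rcases AL_sum hc1 hc2 (by omega) ((TE_low h).2 (by simp only; omega)) with h1 | h1 | h1
    · omega
    · rcases j with _ | j
      · rw [show t + 1 = ix q0 by omega] at h1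
        rw [Nat.succ_mul] at hc1
        omega
      · exact s5 ⟨h1.2.2, j, by rw [Nat.mul_succ] at s4; omega⟩
    · omega
  have g4 : ∀ q : {q // kd q = 5}, q ≠ ⟨q0, q1⟩ → f ∈ F (some (some q)) := fun q hne => by
    have h5 : ix q ≠ ix q0 := fun e => hne (Subtype.ext (hext _ _ (q.2.trans q1.symm) e))
    have h6 : ix q ≤ 2 * p := by have := hk q; have := q.2; omega
    have h7 := fL q
    exact L_mem hx hK h6 t f (Or.inr ⟨by omega, (SumS.one.2
      (Or.inr (Or.inr (by omega)) : AL K _ p (ix q) (f x))).mono (Or.inl rfl) (by omega)⟩)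
  have big : ∀ e, ∀ s ∈ GG kd ix φ x u v e, f + Finsupp.single s
      ((4 * (4 * K + 4 * p) + 1) * (t + 1)) ∈ F e := fun e s hs => by
    rw [add_comm]
    exact (dep e).up _ (Pw_single (EC_single e s hs) _) _
  refine not_dm (k := k) (GF kd ix 4 r) (Up.union (dep _).up upI) ind f
    (fun h => h.elim g1 fun h => g3 (h _)) (fun y hy => f0 y ?_) (fun s hs => ?_)
    (hc.symm ▸ dm_union (dep _).up upI d1 d2 (h.congr fun m => (eq m).symm))
  · have := (Finset.mem_filter.1 hy).2.1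
    omega
  · by_cases h1 : s ∈ GG kd ix φ x u v none
    · exact ⟨_, Or.inl (big _ s h1)⟩
    refine ⟨(4 * (4 * K + 4 * p) + 1) * (t + 1), Or.inr fun e => ?_⟩
    rcases e with _ | q
    · exact (dep _).up _ g2 _
    by_cases h2 : q = ⟨q0, q1⟩
    · refine big _ s ?_
      have h3 : kd s ≠ 0 := fun e => h1 (by
        rw [hext s x (by omega) (by have := hk s; have := hk x; omega)]; simp [GG])
      have := hk s
      simp only [GG, GR, GF, GLe, h2, Finset.mem_insert, Finset.mem_filter, Finset.mem_univ,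
        true_and, not_or] at h1 hs ⊢
      omega
    · exact (dep _).up _ (g4 q h2) _

end main

end Pool.Agent.Dep
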