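import Pool.Agent.H.MP_b90300_al.C

set_option autoImplicit false

namespace Pool.Agent.Dep

open Pool.Agent.PdOne Pool.Agent.PdFun Pool.Agent.PdSym MvPolynomial RingTheory.Sequence

lemma MI_le_max {σ k : Type} [Field k] {E : Set (σ →₀ ℕ)} {G : Finset σ} (h : E ⊆ VG G) :
    MI k E ≤ Ideal.span (Set.range (X : σ → MvPolynomial σ k)) := by
  refine (MI_mono h).trans ?_
  rw [MI_VG]
  exact Ideal.span_mono (Set.image_subset_range _ _)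

lemma max_ne_top {σ k : Type} [Field k] :
    Ideal.span (Set.range (X : σ → MvPolynomial σ k)) ≠ ⊤ := by
  rw [← Set.image_univ, Ne, Ideal.eq_top_iff_one, mem_ideal_span_X_image]
  intro h
  obtain ⟨i, -, h2⟩ := h 0 (by simp)
  simp at h2

lemma Pw_sub {σ : Type} {E : Set (σ →₀ ℕ)} {G : Finset σ} (h : E ⊆ VG G) (t : ℕ) :
    Pw E (t + 1) ⊆ VG G := by
  rintro _ ⟨a, -, b, hb, rfl⟩
  rw [add_comm]
  exact VG_up G b (h hb) a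

theorem main (k : Type) [Field k] (φ : ℕ → ℕ) (p : ℕ) (hp : 1 ≤ p) (h1 : ∀ t, 1 ≤ t → 1 ≤ φ t)
    (hper : ∀ t, p + 1 ≤ t → φ (t + p) = φ t) :
    ∃ (r : ℕ) (s : Set (Fin r →₀ ℕ)), ∀ t, 1 ≤ t → ∃ J : Ideal (MvPolynomial (Fin r) k),
      (∀ f, f ∈ J ↔ ∀ P ∈ (MI k s).minimalPrimes, ∃ w, w ∉ P ∧ w * f ∈ MI k s ^ t) ∧
        IsGreatest {l | ∃ rs : List (MvPolynomial (Fin r) k), rs.length = l ∧
          (∀ a ∈ rs, a ∈ Ideal.span (Set.range (X : Fin r → MvPolynomial (Fin r) k))) ∧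
            IsRegular (MvPolynomial (Fin r) k ⧸ J) rs} (φ t) := by
  classical
  obtain ⟨K, hK, hq⟩ := exists_K p
  set n := (Finset.range (2 * p + 1)).sup φ
  let P : Finset (ℕ × ℕ) := (Finset.range 6 ×ˢ Finset.range (n + 2 * p + 1)).filter fun q =>
    (q.1 ≤ 2 ∧ q.2 = 0) ∨ ((q.1 = 3 ∨ q.1 = 4) ∧ q.2 < n) ∨ (q.1 = 5 ∧ 1 ≤ q.2 ∧ q.2 ≤ 2 * p)
  have hP : ∀ q : ℕ × ℕ, q ∈ P ↔ (q.1 ≤ 2 ∧ q.2 = 0) ∨ ((q.1 = 3 ∨ q.1 = 4) ∧ q.2 < n) ∨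
      (q.1 = 5 ∧ 1 ≤ q.2 ∧ q.2 ≤ 2 * p) := by
    intro q
    simp only [P, Finset.mem_filter, Finset.mem_product, Finset.mem_range]
    omega
  let e := (Fintype.equivFin P).symm
  let kd : Fin (Fintype.card P) → ℕ := fun s => (e s).1.1
  let ix : Fin (Fintype.card P) → ℕ := fun s => (e s).1.2
  have hex' : ∀ a i, (a, i) ∈ P → ∃ s, kd s = a ∧ ix s = i := fun a i h =>
    ⟨e.symm ⟨_, h⟩, by simp [kd], by simp [ix]⟩
  obtain ⟨x, hx, -⟩ := hex' 0 0 ((hP _).2 (by simp))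
  obtain ⟨u, hu, -⟩ := hex' 1 0 ((hP _).2 (by simp))
  obtain ⟨v, hv, -⟩ := hex' 2 0 ((hP _).2 (by simp))
  have hext : ∀ s s', kd s = kd s' → ix s = ix s' → s = s' := fun s s' a b =>
    e.injective (Subtype.ext (Prod.ext a b))
  have hk := fun s => (hP _).1 (e s).2
  have hex : ∀ a i, ((a = 3 ∨ a = 4) ∧ i < n) ∨ (a = 5 ∧ 1 ≤ i ∧ i ≤ 2 * p) →
      ∃ s, kd s = a ∧ ix s = i := fun a i h => hex' a i ((hP _).2 (Or.inr h))
  have hφ : ∀ s, 1 ≤ s → s ≤ 2 * p → 1 ≤ φ s ∧ φ s ≤ n := fun s a b =>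
    ⟨h1 s a, Finset.le_sup (by simp; omega)⟩
  refine ⟨_, {m | ∀ e, m ∈ EC kd ix φ x u v K p e}, fun t ht => ⟨_, symbolic (GG kd ix φ x u v) _
    (fun e => Pw (EC kd ix φ x u v K p e) t) t _ (fun e => MI_Pw _ t) EC_dep
    (fun e => Pw_dep (EC_dep e) t) EC_single (EC_sub (by omega))
    (GG_inj hx hu hv hk hex hφ hp), ?_⟩⟩
  obtain ⟨t, rfl⟩ : ∃ t', t = t' + 1 := ⟨t - 1, by omega⟩
  obtain ⟨h2, h3⟩ := depth_eq (k := k) hx hu hv hext hk hex hφ hp hK hq hper t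
  refine isGreatest_of_dp (MI_le_max (G := GG kd ix φ x u v none) ?_) max_ne_top h2 h3
  exact fun m hm => Pw_sub (EC_sub (by omega) none) t (hm none)

end Pool.Agent.Dep
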